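import Pool.Agent.J4.H71.IR.C

/-!
# Stable spaces of divisors and their isotypic parts
-/

set_option autoImplicit false

open FF IntermediateField Equiv Pool.Agent.J4.H17.ZC Pool.Agent.J4.H27.BB Pool.Agent.J4.H18.CV
  Pool.Agent.J4.H82.PV

namespace Pool.Agent.J4.H71.IR

section defs

variable {k : Type} [Field k] [CharZero k] {K : Type} [Field K] [Algebra k K] {G : Type} [Group G]

/-- The divisors in `W` on whose class the group acts by the character `χ`. -/
def isotypic (β : G →* (K ≃ₐ[k] K)) (W : Submodule k (Place k K →₀ k)) (χ : G →* kˣ) :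
    Submodule k (Place k K →₀ k) where
  carrier := {z | z ∈ W ∧
    ∀ g, Finsupp.mapDomain (act (β g)) z - ((χ g : kˣ) : k) • z ∈ prin k K}
  zero_mem' := ⟨zero_mem _, fun g => by
    rw [Finsupp.mapDomain_zero, smul_zero, sub_zero]
    exact zero_mem _⟩
  add_mem' := fun {x y} hx hy => ⟨add_mem hx.1 hy.1, fun g => by
    rw [Finsupp.mapDomain_add, smul_add, add_sub_add_comm]
    exact add_mem (hx.2 g) (hy.2 g)⟩
  smul_mem' := fun c x hx => ⟨Submodule.smul_mem _ c hx.1, fun g => by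
    rw [Finsupp.mapDomain_smul, smul_comm, ← smul_sub]
    exact Submodule.smul_mem _ c (hx.2 g)⟩

/-- The dimension of the space of the classes of the divisors in `W` on which the group acts by the
character `χ`. -/
noncomputable def isoDim (β : G →* (K ≃ₐ[k] K)) (W : Submodule k (Place k K →₀ k))
    (χ : G →* kˣ) : ℕ :=
  Module.finrank k ((isotypic β W χ).map (prin k K).mkQ)

end defs

section chars

variable {k : Type} [Field k] [CharZero k] [IsAlgClosed k] {G : Type} [CommGroup G] [Fintype G]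
  [Fintype (G →* kˣ)]

theorem sum_chars {g : G} (hg : g ≠ 1) : ∑ χ : G →* kˣ, (((χ g)⁻¹ : kˣ) : k) = 0 := by
  classical
  have hexp : NeZero (Monoid.exponent G) := ⟨Monoid.exponent_ne_zero_of_finite⟩
  have hexpk : NeZero ((Monoid.exponent G : ℕ) : k) := ⟨by
    rw [Nat.cast_ne_zero]; exact hexp.out⟩
  obtain ⟨φ, hφ⟩ := CommGroup.exists_apply_ne_one_of_hasEnoughRootsOfUnity G k hg
  have h1 : ∑ χ : G →* kˣ, (((χ g)⁻¹ : kˣ) : k) =
      (((φ g)⁻¹ : kˣ) : k) * ∑ χ : G →* kˣ, (((χ g)⁻¹ : kˣ) : k) := by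
    rw [Finset.mul_sum]
    refine (Fintype.sum_equiv (Equiv.mulLeft φ) _ _ fun χ => ?_).symm
    change _ = ((((φ * χ) g)⁻¹ : kˣ) : k)
    rw [MonoidHom.mul_apply, mul_inv_rev, Units.val_mul, mul_comm]
  have h2 : (1 - (((φ g)⁻¹ : kˣ) : k)) * ∑ χ : G →* kˣ, (((χ g)⁻¹ : kˣ) : k) = 0 := by
    rw [sub_mul, one_mul, ← h1, sub_self]
  refine (mul_eq_zero.1 h2).resolve_left fun h3 => hφ ?_
  rw [sub_eq_zero] at h3
  have h4 : (φ g)⁻¹ = 1 := Units.ext h3.symm
  exact inv_eq_one.1 h4

variable {K : Type} [Field K] [Algebra k K] [IsFF k K]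

theorem sum_twist (β : G →* (K ≃ₐ[k] K)) (z : Place k K →₀ k) :
    ∑ χ : G →* kˣ, twist β χ z = ((Fintype.card (G →* kˣ) : ℕ) : k) • z := by
  classical
  unfold twist
  rw [Finset.sum_comm, Finset.sum_eq_single (1 : G)]
  · have h1 : act (β 1) = (id : Place k K → Place k K) := by
      funext P
      rw [map_one, act_one]
      rfl
    rw [h1, Finsupp.mapDomain_id, ← Finset.sum_smul]
    congr 1
    rw [Finset.sum_congr rfl fun χ _ => by rw [map_one, inv_one, Units.val_one], Finset.sum_const,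
      Finset.card_univ, nsmul_eq_mul, mul_one]
  · intro g _ hg
    rw [← Finset.sum_smul, sum_chars hg, zero_smul]
  · intro h
    exact absurd (Finset.mem_univ _) h

omit [IsAlgClosed k] [Fintype (G →* kˣ)] [IsFF k K] in
theorem twist_mem {β : G →* (K ≃ₐ[k] K)} {W : Submodule k (Place k K →₀ k)}
    (hst : ∀ g, ∀ z ∈ W, Finsupp.mapDomain (act (β g)) z ∈ W) (χ : G →* kˣ) {z : Place k K →₀ k}
    (hz : z ∈ W) : twist β χ z ∈ isotypic β W χ := by
  refine ⟨?_, fun g => ?_⟩
  · unfold twist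
    exact Submodule.sum_mem _ fun g _ => Submodule.smul_mem _ _ (hst g z hz)
  · rw [map_twist, sub_self]
    exact zero_mem _

omit [IsAlgClosed k] [Fintype (G →* kˣ)] [IsFF k K] in
theorem sub_twist_mem {β : G →* (K ≃ₐ[k] K)} {W : Submodule k (Place k K →₀ k)} {χ : G →* kˣ}
    {z : Place k K →₀ k} (hz : z ∈ isotypic β W χ) :
    z - twist β χ (((Fintype.card G : ℕ) : k)⁻¹ • z) ∈ prin k K := by
  have hc : ((Fintype.card G : ℕ) : k) ≠ 0 := by
    rw [Nat.cast_ne_zero]
    exact Fintype.card_ne_zero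
  have h1 : z - twist β χ (((Fintype.card G : ℕ) : k)⁻¹ • z) =
      ((Fintype.card G : ℕ) : k)⁻¹ • (((Fintype.card G : ℕ) : k) • z - twist β χ z) := by
    rw [smul_sub, smul_smul, inv_mul_cancel₀ hc, one_smul, twist_eq, twist_eq, map_smul]
  rw [h1]
  refine Submodule.smul_mem _ _ ?_
  have h2 : ((Fintype.card G : ℕ) : k) • z - twist β χ z =
      -∑ g : G, (((χ g)⁻¹ : kˣ) : k) • (Finsupp.mapDomain (act (β g)) z - ((χ g : kˣ) : k) • z) := by
    unfold twist
    have h3 : ∀ g : G, (((χ g)⁻¹ : kˣ) : k) •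
        (Finsupp.mapDomain (act (β g)) z - ((χ g : kˣ) : k) • z) =
        (((χ g)⁻¹ : kˣ) : k) • Finsupp.mapDomain (act (β g)) z - z := by
      intro g
      rw [smul_sub, smul_smul, Units.inv_mul, one_smul]
    rw [Finset.sum_congr rfl fun g _ => h3 g, Finset.sum_sub_distrib, Finset.sum_const,
      Finset.card_univ, neg_sub, Nat.cast_smul_eq_nsmul]
  rw [h2]
  exact neg_mem (Submodule.sum_mem _ fun g _ => Submodule.smul_mem _ _ (hz.2 g))

end chars

section main

variable {k : Type} [Field k] [CharZero k] [IsAlgClosed k] {K : Type} [Field K] [Algebra k K]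
  [IsFF k K]

omit [IsAlgClosed k] [IsFF k K] in
theorem map_prin {K' : Type} [Field K'] [Algebra k K'] {f : Place k K → Place k K'}
    (hf : (curve k K').IsMor K f) {z : Place k K →₀ k} (hz : z ∈ prin k K) :
    Finsupp.mapDomain f z ∈ prin k K' := by
  have h1 : prin k K ≤ (prin k K').comap (Finsupp.lmapDomain k k f) := by
    unfold prin
    rw [Submodule.span_le]
    rintro z ⟨r, hr, rfl⟩
    refine Submodule.subset_span ⟨Finsupp.mapDomain f r, ?_, ?_⟩
    · exact Reg.push (X := curve k K) (Y := curve k K') (F := f) (reg_of_isMor hf) hr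
    · rw [Finsupp.lmapDomain_apply, toK_map]
  exact h1 hz

omit [IsAlgClosed k] [IsFF k K] in
theorem images_le {K' : Type} [Field K'] [Algebra k K'] (W : Set (Place k K →₀ k))
    (S : Set (Place k K →₀ k)) (h : ∀ z ∈ W, z ∈ Submodule.span k S ⊔ prin k K) :
    imagesK k K' W ≤ imagesK k K' S := by
  unfold imagesK
  rw [Submodule.span_le]
  rintro z (hz | ⟨b, hb, f, hf, rfl⟩)
  · exact Submodule.subset_span (Or.inl hz)
  · obtain ⟨u, hu, v, hv, huv⟩ := Submodule.mem_sup.1 (h b hb)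
    rw [← huv, Finsupp.mapDomain_add]
    refine add_mem ?_ ?_
    · have h1 : Submodule.span k S ≤ (Submodule.span k ({z | ∃ r ∈ RatEq (curve k K'), z = toK r} ∪
        {z | ∃ b ∈ S, ∃ f : Place k K → Place k K', (curve k K').IsMor K f ∧
          z = Finsupp.mapDomain f b})).comap (Finsupp.lmapDomain k k f) := by
        rw [Submodule.span_le]
        intro w hw
        exact Submodule.subset_span (Or.inr ⟨w, hw, f, hf, rfl⟩)
      exact h1 hu
    · exact Submodule.span_mono Set.subset_union_left (map_prin hf hv)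

/-- The exterior products of divisors in a stable space. -/
theorem stable_main {G : Type} [CommGroup G] [Fintype G] [Fintype (G →* kˣ)]
    (β : G →* (K ≃ₐ[k] K)) (W : Submodule k (Place k K →₀ k))
    (hst : ∀ g, ∀ z ∈ W, Finsupp.mapDomain (act (β g)) z ∈ W) (h0 : ∀ z ∈ W, dgK z = 0)
    (hfin : Module.Finite k (W.map (prin k K).mkQ)) (ν : (G →* kˣ) → ℕ)
    (hν : ∀ χ, isoDim β W χ = 0 ∨ CharBound β χ (ν χ))
    {n : ℕ} (hn : ∑ χ, ν χ * isoDim β W χ < n)
    (K' : Fin n → Type) [∀ i, Field (K' i)] [∀ i, Algebra k (K' i)]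
    [∀ i, IsFF k (K' i)] (a : ∀ i, Place k (K' i) →₀ ℤ)
    (ha : ∀ i, (toK (a i) : Place k (K' i) →₀ k) ∈ imagesK k (K' i) (W : Set (Place k K →₀ k))) :
    (2 ≤ n → ∀ i, Finsupp.mapDomain (fun x : ∀ i, Place k (K' i) => x i) (prodCycle a) = 0) ∧
    ∃ N : ℕ, 0 < N ∧ N • prodCycle a ∈ RatEq (varPi fun i => curve k (K' i)) := by
  classical
  let V : (G →* kˣ) → Submodule k ((Place k K →₀ k) ⧸ prin k K) := fun χ =>
    (isotypic β W χ).map (prin k K).mkQ
  have hV : ∀ χ, V χ ≤ W.map (prin k K).mkQ := fun χ => Submodule.map_mono fun z hz => hz.1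
  have hVfin : ∀ χ, Module.Finite k (V χ) := fun χ =>
    Submodule.finiteDimensional_of_le (hV χ)
  let B : ∀ χ, Module.Basis (Fin (isoDim β W χ)) k (V χ) := fun χ => Module.finBasis k (V χ)
  have hlift : ∀ χ (j : Fin (isoDim β W χ)), ∃ z ∈ isotypic β W χ,
      (prin k K).mkQ z = (B χ j : (Place k K →₀ k) ⧸ prin k K) := fun χ j =>
    Submodule.mem_map.1 (B χ j).2
  choose z hz hzB using hlift
  let b : (Σ χ, Fin (isoDim β W χ)) → Place k K →₀ k := fun j => z j.1 j.2
  refine iso_main b (fun j => ν j.1) ?_ ?_ K' a ?_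
  · rintro ⟨χ, j⟩
    refine ⟨G, inferInstance, inferInstance, β, χ, ((Fintype.card G : ℕ) : k)⁻¹ • z χ j, fun _ => ?_,
      sub_twist_mem (hz χ j), ?_⟩
    · rw [map_smul, h0 _ (hz χ j).1, smul_zero]
    · refine (hν χ).resolve_left fun h => ?_
      have h1 := j.2
      omega
  · rw [Fintype.sum_sigma]
    refine lt_of_le_of_lt (le_of_eq ?_) hn
    refine Finset.sum_congr rfl fun χ _ => ?_
    change ∑ _j : Fin (isoDim β W χ), ν χ = _
    rw [Finset.sum_const, Finset.card_univ, Fintype.card_fin, smul_eq_mul, mul_comm]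
  · intro i
    refine images_le _ _ (fun w hw => ?_) (ha i)
    have hc : ((Fintype.card (G →* kˣ) : ℕ) : k) ≠ 0 := by
      rw [Nat.cast_ne_zero]
      exact Fintype.card_ne_zero
    have h1 : w = ((Fintype.card (G →* kˣ) : ℕ) : k)⁻¹ • ∑ χ : G →* kˣ, twist β χ w := by
      rw [sum_twist, smul_smul, inv_mul_cancel₀ hc, one_smul]
    rw [h1]
    refine Submodule.smul_mem _ _ (Submodule.sum_mem _ fun χ _ => ?_)
    have h2 := twist_mem hst χ hw
    have h3 : (prin k K).mkQ (twist β χ w) ∈ V χ := Submodule.mem_map_of_mem h2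
    obtain ⟨c, h4⟩ : ∃ c : Fin (isoDim β W χ) → k, (prin k K).mkQ (twist β χ w) =
        ∑ j, c j • (B χ j : (Place k K →₀ k) ⧸ prin k K) := by
      refine ⟨(B χ).repr ⟨_, h3⟩, ?_⟩
      have h6 := congrArg (fun v : V χ => (v : (Place k K →₀ k) ⧸ prin k K))
        ((B χ).sum_repr ⟨_, h3⟩)
      simp only [Submodule.coe_sum, Submodule.coe_smul] at h6
      exact h6.symm
    have h5 : (prin k K).mkQ (twist β χ w - ∑ j, c j • z χ j) = 0 := by
      rw [map_sub, map_sum, h4, sub_eq_zero]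
      refine Finset.sum_congr rfl fun j _ => ?_
      rw [map_smul, hzB]
    have h7 : twist β χ w - ∑ j, c j • z χ j ∈ prin k K := by
      rw [Submodule.mkQ_apply, Submodule.Quotient.mk_eq_zero] at h5
      exact h5
    have h8 : twist β χ w = ∑ j, c j • z χ j + (twist β χ w - ∑ j, c j • z χ j) := by abel
    rw [h8]
    refine add_mem (Submodule.mem_sup_left (Submodule.sum_mem _ fun j _ =>
      Submodule.smul_mem _ _ (Submodule.subset_span ⟨⟨χ, j⟩, rfl⟩))) (Submodule.mem_sup_right h7)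

end main

end Pool.Agent.J4.H71.IR
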