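import Pool.Agent.J4.H18.CV.H
import Pool.Agent.J4.H27.BB.Main

/-!
# Exterior products of zero-cycles with coefficients in the ground field on products of curves
-/

set_option autoImplicit false

open FF IntermediateField Equiv Pool.Agent.J4.H17.ZC Pool.Agent.J4.H27.BB Pool.Agent.J4.H18.CV

namespace Pool.Agent.J4.H71.IR

section span

/-- A multilinear map which vanishes on the products of generating sets. -/
theorem multi_span {k : Type} [Field k] {ι : Type} [Fintype ι] [DecidableEq ι] {M : ι → Type}
    [∀ i, AddCommGroup (M i)] [∀ i, Module k (M i)] {V : Type} [AddCommGroup V] [Module k V]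
    (f : MultilinearMap k M V)
    (S : ∀ i, Set (M i)) (h : ∀ d : ∀ i, M i, (∀ i, d i ∈ S i) → f d = 0) (d : ∀ i, M i)
    (hd : ∀ i, d i ∈ Submodule.span k (S i)) : f d = 0 := by
  have key : ∀ (T : Finset ι) (d : ∀ i, M i), (∀ i ∈ T, d i ∈ Submodule.span k (S i)) →
      (∀ i, i ∉ T → d i ∈ S i) → f d = 0 := by
    intro T
    induction T using Finset.induction_on with
    | empty => intro d _ h2; exact h d fun i => h2 i (Finset.notMem_empty i)
    | insert i T hi ih =>
      intro d h1 h2
      have h3 : ∀ z ∈ Submodule.span k (S i), f (Function.update d i z) = 0 := by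
        intro z hz
        induction hz using Submodule.span_induction with
        | mem z hz =>
          refine ih _ ?_ ?_
          · intro j hj
            have hji : j ≠ i := fun h => hi (h ▸ hj)
            rw [Function.update_of_ne hji]
            exact h1 j (Finset.mem_insert_of_mem hj)
          · intro j hj
            by_cases hji : j = i
            · subst hji
              rw [Function.update_self]
              exact hz
            · rw [Function.update_of_ne hji]
              exact h2 j fun h => (Finset.mem_insert.1 h).elim hji hj
        | zero => exact MultilinearMap.map_update_zero f d i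
        | add x y _ _ hx hy => rw [MultilinearMap.map_update_add, hx, hy, add_zero]
        | smul c x _ hx => rw [MultilinearMap.map_update_smul, hx, smul_zero]
      have h4 := h3 (d i) (h1 i (Finset.mem_insert_self i T))
      rwa [Function.update_eq_self] at h4
  exact key Finset.univ d (fun i _ => hd i) fun i hi => absurd (Finset.mem_univ i) hi

theorem span_single {k A : Type} [Field k] (z : A →₀ k) :
    z ∈ Submodule.span k {w : A →₀ k | ∃ x, w = Finsupp.single x 1} := by
  induction z using Finsupp.induction_linear with
  | zero => exact zero_mem _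
  | add u v hu hv => exact add_mem hu hv
  | single x c =>
    have h : Finsupp.single x c = c • Finsupp.single x (1 : k) := by
      rw [Finsupp.smul_single, smul_eq_mul, mul_one]
    rw [h]
    exact Submodule.smul_mem _ _ (Submodule.subset_span ⟨x, rfl⟩)

end span

section ext

variable {k : Type} [Field k] {n : ℕ} {A B : Fin n → Type}

/-- the exterior product of zero-cycles with coefficients in `k` -/
noncomputable def extP (a : ∀ i, A i →₀ k) : (∀ i, A i) →₀ k :=
  Finsupp.onFinset (Fintype.piFinset fun i => (a i).support) (fun x => ∏ i, a i (x i)) (by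
    intro x hx
    rw [Fintype.mem_piFinset]
    intro i
    rw [Finsupp.mem_support_iff]
    intro h
    exact hx (Finset.prod_eq_zero (Finset.mem_univ i) h))

theorem extP_apply (a : ∀ i, A i →₀ k) (x : ∀ i, A i) : extP a x = ∏ i, a i (x i) := rfl

theorem extP_single (x : ∀ i, A i) :
    extP (fun i => Finsupp.single (x i) (1 : k)) = Finsupp.single x 1 := by
  classical
  ext y
  rw [extP_apply, Finsupp.single_apply]
  split_ifs with h
  · subst h; simp
  · obtain ⟨i, hi⟩ := Function.ne_iff.1 h
    refine Finset.prod_eq_zero (Finset.mem_univ i) ?_
    rw [Finsupp.single_eq_of_ne (Ne.symm hi)]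

variable (k A) in
/-- the exterior product as a multilinear map -/
noncomputable def extPM : MultilinearMap k (fun i : Fin n => A i →₀ k) ((∀ i, A i) →₀ k) where
  toFun := extP
  map_update_add' := by
    intro inst m i x y
    have hinst : inst = instDecidableEqFin n := Subsingleton.elim _ _
    subst hinst
    ext z
    rw [Finsupp.add_apply, extP_apply, extP_apply, extP_apply]
    have h : ∀ w : A i →₀ k, ∏ j, (Function.update m i w) j (z j) =
        w (z i) * ∏ j ∈ Finset.univ.erase i, m j (z j) := by
      intro w
      rw [← Finset.mul_prod_erase _ _ (Finset.mem_univ i), Function.update_self]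
      congr 1
      refine Finset.prod_congr rfl fun j hj => ?_
      rw [Function.update_of_ne (Finset.ne_of_mem_erase hj)]
    rw [h, h, h, Finsupp.add_apply, add_mul]
  map_update_smul' := by
    intro inst m i c x
    have hinst : inst = instDecidableEqFin n := Subsingleton.elim _ _
    subst hinst
    ext z
    rw [Finsupp.smul_apply, extP_apply, extP_apply]
    have h : ∀ w : A i →₀ k, ∏ j, (Function.update m i w) j (z j) =
        w (z i) * ∏ j ∈ Finset.univ.erase i, m j (z j) := by
      intro w
      rw [← Finset.mul_prod_erase _ _ (Finset.mem_univ i), Function.update_self]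
      congr 1
      refine Finset.prod_congr rfl fun j hj => ?_
      rw [Function.update_of_ne (Finset.ne_of_mem_erase hj)]
    rw [h, h, Finsupp.smul_apply, smul_eq_mul, smul_eq_mul, mul_assoc]

/-- the multilinear extension of a function on the product -/
noncomputable def MP (Λ : (∀ i, A i) → k) : MultilinearMap k (fun i : Fin n => A i →₀ k) k :=
  (Finsupp.linearCombination k Λ).compMultilinearMap (extPM k A)

theorem MP_apply (Λ : (∀ i, A i) → k) (a : ∀ i, A i →₀ k) :
    MP Λ a = Finsupp.linearCombination k Λ (extP a) := rfl

theorem MP_single (Λ : (∀ i, A i) → k) (x : ∀ i, A i) :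
    MP Λ (fun i => Finsupp.single (x i) 1) = Λ x := by
  rw [MP_apply, extP_single, Finsupp.linearCombination_single, one_smul]

theorem MP_map (q : ∀ i, A i → B i) (Λ : (∀ i, B i) → k) (w : ∀ i, A i →₀ k) :
    MP (fun x : ∀ i, A i => Λ fun i => q i (x i)) w = MP Λ fun i => Finsupp.mapDomain (q i) (w i) := by
  let f1 : MultilinearMap k (fun i : Fin n => A i →₀ k) k :=
    (MP Λ).compLinearMap fun i => Finsupp.lmapDomain k k (q i)
  have h1 : (MP (fun x : ∀ i, A i => Λ fun i => q i (x i)) - f1) w = 0 := by
    refine multi_span _ (fun i => {w : A i →₀ k | ∃ x, w = Finsupp.single x 1}) ?_ w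
      fun i => span_single _
    intro d hd
    choose x hx using hd
    have hd' : d = fun i => Finsupp.single (x i) 1 := funext hx
    rw [hd', MultilinearMap.sub_apply, MP_single]
    have h2 : f1 (fun i => Finsupp.single (x i) (1 : k)) =
        MP Λ fun i => Finsupp.single (q i (x i)) (1 : k) := by
      change MP Λ (fun i => Finsupp.lmapDomain k k (q i) (Finsupp.single (x i) 1)) = _
      congr 1
      funext i
      rw [Finsupp.lmapDomain_apply, Finsupp.mapDomain_single]
    rw [h2, MP_single, sub_self]
  rw [MultilinearMap.sub_apply, sub_eq_zero] at h1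
  exact h1

theorem toK_prodCycle (a : ∀ i, A i →₀ ℤ) :
    (toK (prodCycle a) : (∀ i, A i) →₀ k) = extP fun i => toK (a i) := by
  ext x
  rw [toK_apply, prodCycle_apply, extP_apply]
  push_cast
  exact Finset.prod_congr rfl fun i _ => (toK_apply _ _).symm

theorem ev_prodCycle (Λ : (∀ i, A i) → k) (a : ∀ i, A i →₀ ℤ) :
    ev Λ (prodCycle a) = MP Λ fun i => toK (a i) := by
  rw [← lin_toK, toK_prodCycle]
  rfl

theorem MP_eq_ML {A : Type} (Λ : (Fin n → A) → k) (a : Fin n → A →₀ k) :
    MP (A := fun _ => A) Λ a = ML Λ a := by
  have h1 : (MP (A := fun _ => A) Λ - ML Λ) a = 0 := by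
    refine multi_span _ (fun i => {w : A →₀ k | ∃ x, w = Finsupp.single x 1}) ?_ a
      fun i => span_single _
    intro d hd
    choose x hx using hd
    have hd' : d = fun i => Finsupp.single (x i) 1 := funext hx
    rw [hd', MultilinearMap.sub_apply, MP_single, ML_single, sub_self]
  rw [MultilinearMap.sub_apply, sub_eq_zero] at h1
  exact h1

end ext

section null

variable {k : Type} [Field k] [CharZero k] {n : ℕ} {X : Fin n → Var k}

/-- A cycle rationally equivalent to zero in one coordinate. -/
theorem MP_rat (hX : ∀ i, (X i).Const) {Λ : (∀ i, (X i).Pt) → k} (hΛ : Kill (varPi X) Λ)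
    (i : Fin n) {r : (X i).Pt →₀ ℤ} (hr : r ∈ RatEq (X i)) (w : ∀ i, (X i).Pt →₀ k)
    (hw : w i = toK r) : MP Λ w = 0 := by
  classical
  refine multi_span (MP Λ) (fun j => {z : (X j).Pt →₀ k | (j ≠ i → ∃ x, z = Finsupp.single x 1) ∧
    ∀ h : j = i, z = h ▸ (toK r : (X i).Pt →₀ k)}) ?_ w ?_
  · intro d hd
    by_cases hne : Nonempty (X i).Pt
    · obtain ⟨x0⟩ := hne
      have h1 : ∀ j, ∃ x : (X j).Pt, j ≠ i → d j = Finsupp.single x 1 := by
        intro j
        by_cases h : j = i
        · subst h
          exact ⟨x0, fun h => absurd rfl h⟩
        · obtain ⟨x, hx⟩ := (hd j).1 h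
          exact ⟨x, fun _ => hx⟩
      choose x hx using h1
      have hdi : d i = toK r := (hd i).2 rfl
      have h2 : ∀ z : (X i).Pt →₀ k, MP Λ (Function.update d i z) =
          Finsupp.linearCombination k (fun y => Λ (Function.update x i y)) z := by
        intro z
        induction z using Finsupp.induction_linear with
        | zero => rw [MultilinearMap.map_update_zero, map_zero]
        | add u v hu hv => rw [MultilinearMap.map_update_add, map_add, hu, hv]
        | single y c =>
          rw [Finsupp.linearCombination_single]
          have h4 : Finsupp.single y c = c • Finsupp.single y (1 : k) := by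
            rw [Finsupp.smul_single, smul_eq_mul, mul_one]
          rw [h4, MultilinearMap.map_update_smul]
          congr 1
          rw [← MP_single Λ (Function.update x i y)]
          congr 1
          funext j
          by_cases h : j = i
          · subst h
            rw [Function.update_self, Function.update_self]
          · rw [Function.update_of_ne h, Function.update_of_ne h, hx j h]
      have h3 := h2 (d i)
      rw [Function.update_eq_self] at h3
      rw [h3, hdi, lin_toK]
      refine Kill.comp (X := X i) (Y := varPi X) (F := fun y => Function.update x i y) ?_ hΛ r hr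
      intro L _ _ y hy j
      by_cases h : j = i
      · subst h
        simp only [Function.update_self]
        exact hy
      · simp only [Function.update_of_ne h]
        exact hX j L (x j)
    · refine MultilinearMap.map_coord_zero _ i ?_
      ext y
      exact absurd ⟨y⟩ hne
  · intro j
    by_cases h : j = i
    · subst h
      refine Submodule.subset_span ⟨fun h => absurd rfl h, fun h => ?_⟩
      exact hw
    · have h1 : {z : (X j).Pt →₀ k | ∃ x, z = Finsupp.single x 1} ⊆
          {z : (X j).Pt →₀ k | (j ≠ i → ∃ x, z = Finsupp.single x 1) ∧
            ∀ h : j = i, z = h ▸ (toK r : (X i).Pt →₀ k)} := by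
        intro z hz
        exact ⟨fun _ => hz, fun h' => absurd h' h⟩
      exact Submodule.span_mono h1 (span_single _)

end null

end Pool.Agent.J4.H71.IR
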