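import Pool.Agent.J4.H71.IR.A

/-!
# Reduction to exterior products of fixed divisors on one curve
-/

set_option autoImplicit false

open FF IntermediateField Equiv Pool.Agent.J4.H17.ZC Pool.Agent.J4.H27.BB Pool.Agent.J4.H18.CV
  Pool.Agent.J4.H82.PV

namespace Pool.Agent.J4.H71.IR

section defs

variable (k : Type) [Field k] [CharZero k]

/-- The space of the divisors with coefficients in `k` which are rationally equivalent to zero. -/
noncomputable def prin (K : Type) [Field K] [Algebra k K] :
    Submodule k (Place k K →₀ k) :=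
  Submodule.span k {z | ∃ r ∈ RatEq (curve k K), z = toK r}

/-- The space spanned by the divisors rationally equivalent to zero and by the images of the divisors
in `S` under all morphisms. -/
noncomputable def imagesK {K : Type} [Field K] [Algebra k K] (K' : Type) [Field K'] [Algebra k K']
    (S : Set (Place k K →₀ k)) : Submodule k (Place k K' →₀ k) :=
  Submodule.span k ({z | ∃ r ∈ RatEq (curve k K'), z = toK r} ∪
    {z | ∃ b ∈ S, ∃ f : Place k K → Place k K', (curve k K').IsMor K f ∧
      z = Finsupp.mapDomain f b})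

end defs

section deg

variable {k : Type} [Field k] {A B : Type}

/-- the degree -/
noncomputable def dgK : (A →₀ k) →ₗ[k] k := Finsupp.linearCombination k fun _ => (1 : k)

theorem dgK_single (x : A) (c : k) : dgK (Finsupp.single x c) = c := by
  unfold dgK
  rw [Finsupp.linearCombination_single, smul_eq_mul, mul_one]

theorem dgK_toK (z : A →₀ ℤ) : dgK (toK z : A →₀ k) = ((dg z : ℤ) : k) := by
  induction z using Finsupp.induction_linear with
  | zero => rw [toK_zero, map_zero, map_zero, Int.cast_zero]
  | add u v hu hv => rw [toK_add, map_add, hu, hv, map_add, Int.cast_add]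
  | single x c => rw [toK_single, dgK_single, dg_single]

theorem dgK_map (f : A → B) (z : A →₀ k) : dgK (Finsupp.mapDomain f z) = dgK z := by
  induction z using Finsupp.induction_linear with
  | zero => simp
  | add u v hu hv => rw [Finsupp.mapDomain_add, map_add, hu, hv, map_add]
  | single x c => rw [Finsupp.mapDomain_single, dgK_single, dgK_single]

end deg

variable {k : Type} [Field k] [CharZero k] {K : Type} [Field K] [Algebra k K] [IsFF k K]

theorem rat_div {K' : Type} [Field K'] [Algebra k K'] [IsFF k K'] {f : K'} (hf : f ≠ 0) :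
    divisor k f ∈ RatEq (curve k K') := by
  have hid : (curve k K').IsMor K' (fun P => P) :=
    Or.inr ⟨AlgHom.id k K', fun P => ⟨1, one_pos, fun g => by simp⟩⟩
  have h5 := mem_ratEq (X := curve k K') (L := K') hid hf
  have h6 : Finsupp.mapDomain (fun P : Place k K' => P) (divisor k f) = divisor k f :=
    Finsupp.mapDomain_id
  rwa [h6] at h5

theorem dg_rat [IsAlgClosed k] {X : Var k} {r : X.Pt →₀ ℤ} (hr : r ∈ RatEq X) : dg r = 0 := by
  have h : RatEq X ≤ (dg (A := X.Pt)).ker := by
    unfold RatEq
    rw [AddSubgroup.closure_le]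
    rintro z ⟨L, _, _, _, x, f, hx, hf, rfl⟩
    change dg (Finsupp.mapDomain x (divisor k f)) = 0
    have h1 : ∀ d : Place k L →₀ ℤ, dg (Finsupp.mapDomain x d) = dg d := by
      intro d
      induction d using Finsupp.induction_linear with
      | zero => simp
      | add u v hu hv => rw [Finsupp.mapDomain_add, map_add, hu, hv, map_add]
      | single x c => rw [Finsupp.mapDomain_single, dg_single, dg_single]
    rw [h1, dg_divisor]
  exact h hr

omit [IsFF k K] in
theorem dgK_prin [IsAlgClosed k] {z : Place k K →₀ k} (hz : z ∈ prin k K) : dgK z = 0 := by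
  have h : prin k K ≤ LinearMap.ker (dgK (k := k) (A := Place k K)) := by
    unfold prin
    rw [Submodule.span_le]
    rintro z ⟨r, hr, rfl⟩
    change dgK _ = 0
    rw [dgK_toK, dg_rat hr, Int.cast_zero]
  exact h hz

omit [IsFF k K] in
theorem dgK_images [IsAlgClosed k] {K' : Type} [Field K'] [Algebra k K']
    {S : Set (Place k K →₀ k)} (hb : ∀ b ∈ S, dgK b = 0) {z : Place k K' →₀ k}
    (hz : z ∈ imagesK k K' S) : dgK z = 0 := by
  have h : imagesK k K' S ≤ LinearMap.ker (dgK (k := k) (A := Place k K')) := by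
    unfold imagesK
    rw [Submodule.span_le]
    rintro z (⟨r, hr, rfl⟩ | ⟨b, hbS, f, -, rfl⟩)
    · change dgK _ = 0
      rw [dgK_toK, dg_rat hr, Int.cast_zero]
    · change dgK _ = 0
      rw [dgK_map, hb b hbS]
  exact h hz

section van

variable {n : ℕ}

/-- Equal cycles from the image of the operator `e` in `ν + 1` positions. -/
theorem case_aux {e : Place k K → (Place k K →₀ k)} {ν : ℕ} (hv : VanK k e ν)
    {Λ : (Fin n → Place k K) → k} (hΛ : Kill ((curve k K).pow (Fin n)) Λ) (T : Finset (Fin n))
    (hT : T.card = ν + 1) (D : Place k K →₀ k) (Z : Fin n → Place k K →₀ k) :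
    ML Λ (fun i => if i ∈ T then Finsupp.linearCombination k e D else Z i) = 0 := by
  classical
  let Λ1 : MultilinearMap k (fun _ : Fin n => Place k K →₀ k) k :=
    (ML Λ).compLinearMap (fun i => if i ∈ T then Finsupp.linearCombination k e else LinearMap.id)
  have hΛ1 : ∀ d : Fin n → Place k K →₀ k, Λ1 d =
      ML Λ (fun i => if i ∈ T then Finsupp.linearCombination k e (d i) else d i) := by
    intro d
    change ML Λ (fun i => (if i ∈ T then Finsupp.linearCombination k e else LinearMap.id) (d i)) = _
    congr 1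
    funext i
    split_ifs <;> rfl
  have h1 : ∀ d : Fin n → Place k K →₀ k, (∑ τ ∈ PT T, Λ1.domDomCongr τ) d = 0 := by
    intro d
    refine multi_span _ (fun i => {w : Place k K →₀ k | ∃ x, w = Finsupp.single x 1}) ?_ d
      fun i => span_single _
    intro d' hd'
    choose s hs using hd'
    have hd'' : d' = fun i => Finsupp.single (s i) 1 := funext hs
    rw [hd'', MultilinearMap.sum_apply]
    simp only [MultilinearMap.domDomCongr_apply]
    have h2 := van_multiK hv T hT s Λ hΛ (fun i => Finsupp.single (s i) 1)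
    rw [← h2]
    refine Finset.sum_congr rfl fun τ hτ => ?_
    rw [hΛ1]
    congr 1
    funext i
    by_cases hi : i ∈ T
    · rw [if_pos hi, if_pos hi, Finsupp.linearCombination_single, one_smul]
    · rw [if_neg hi, if_neg hi]
      rw [mem_PT] at hτ
      rw [hτ i hi]
  have h2 := h1 (fun i => if i ∈ T then D else Z i)
  rw [MultilinearMap.sum_apply] at h2
  simp only [MultilinearMap.domDomCongr_apply] at h2
  have h3 : ∀ τ ∈ PT T, Λ1 (fun i => if τ i ∈ T then D else Z (τ i)) =
      ML Λ (fun i => if i ∈ T then Finsupp.linearCombination k e D else Z i) := by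
    intro τ hτ
    rw [hΛ1]
    congr 1
    funext i
    rw [mem_PT] at hτ
    by_cases hi : i ∈ T
    · have h4 : τ i ∈ T := by
        by_contra h5
        have h6 := hτ _ h5
        exact h5 (by rw [τ.injective h6]; exact hi)
      rw [if_pos hi, if_pos hi, if_pos h4]
    · rw [if_neg hi, if_neg hi, hτ i hi, if_neg hi]
  rw [Finset.sum_congr rfl h3, Finset.sum_const, nsmul_eq_mul] at h2
  rcases mul_eq_zero.1 h2 with h5 | h5
  · have h6 : (PT T).card = 0 := by exact_mod_cast h5
    rw [Finset.card_eq_zero] at h6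
    have h7 : (1 : Equiv.Perm (Fin n)) ∈ PT T := by
      rw [mem_PT]
      intro x _
      rfl
    rw [h6] at h7
    simp at h7
  · exact h5

theorem null_prin {Λ : (Fin n → Place k K) → k} (hΛ : Kill ((curve k K).pow (Fin n)) Λ) :
    prin k K ≤ NullK Λ := by
  unfold prin
  rw [Submodule.span_le]
  rintro z ⟨r, hr, rfl⟩
  exact null_rat (X := curve k K) (fun L _ _ Q => curve_const K L Q) hΛ hr

/-- Equal cycles in `ν + 1` positions, which are in the image of the operator `e` up to principal
divisors. -/
theorem case_vanK {e : Place k K → (Place k K →₀ k)} {ν : ℕ} (hv : VanK k e ν)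
    {Λ : (Fin n → Place k K) → k} (hΛ : Kill ((curve k K).pow (Fin n)) Λ) (T : Finset (Fin n))
    (hT : T.card = ν + 1) (b D : Place k K →₀ k)
    (hb : b - Finsupp.linearCombination k e D ∈ prin k K)
    (d : Fin n → Place k K →₀ k) (hd : ∀ i ∈ T, d i = b) : ML Λ d = 0 := by
  classical
  rw [← case_aux hv hΛ T hT D d]
  refine teleK Λ _ _ fun i => ?_
  by_cases hi : i ∈ T
  · rw [if_pos hi, hd i hi]
    exact null_prin hΛ hb
  · rw [if_neg hi, sub_self]
    exact zero_mem _

end van

/-- Reduction to exterior products of the divisors `b j` on the power of one curve. -/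
theorem reduceK [IsAlgClosed k] {J : Type} (b : J → Place k K →₀ k) (hb : ∀ j, dgK (b j) = 0)
    {n : ℕ}
    (H : ∀ Λ : (Fin n → Place k K) → k, Kill ((curve k K).pow (Fin n)) Λ →
      ∀ j : Fin n → J, ML Λ (fun i => b (j i)) = 0)
    (K' : Fin n → Type) [∀ i, Field (K' i)] [∀ i, Algebra k (K' i)]
    [∀ i, IsFF k (K' i)] (a : ∀ i, Place k (K' i) →₀ ℤ)
    (ha : ∀ i, (toK (a i) : Place k (K' i) →₀ k) ∈ imagesK k (K' i) (Set.range b)) :
    (2 ≤ n → ∀ i, Finsupp.mapDomain (fun x : ∀ i, Place k (K' i) => x i) (prodCycle a) = 0) ∧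
    ∃ N : ℕ, 0 < N ∧ N • prodCycle a ∈ RatEq (varPi fun i => curve k (K' i)) := by
  classical
  refine ⟨?_, torsion_of_hom _ _ fun l hl => ?_⟩
  · intro hn i
    have : Nontrivial (Fin n) := Fin.nontrivial_iff_two_le.2 hn
    obtain ⟨j, hj⟩ := exists_ne i
    refine prodCycle_proj a hj ?_
    have h1 := dgK_images (by rintro _ ⟨j, rfl⟩; exact hb j) (ha j)
    rw [dgK_toK] at h1
    exact_mod_cast h1
  let lk : ((∀ i, Place k (K' i)) →₀ ℤ) →+ k := (Rat.castHom k).toAddMonoidHom.comp l
  let Λ : (∀ i, Place k (K' i)) → k := fun x => lk (Finsupp.single x 1)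
  have hev : ev Λ = lk := ev_hom lk
  have hΛ : Kill (varPi fun i => curve k (K' i)) Λ := by
    intro z hz
    rw [hev]
    change ((l z : ℚ) : k) = 0
    rw [hl z hz, Rat.cast_zero]
  have h1 : MP Λ (fun i => toK (a i)) = 0 := by
    refine multi_span (MP Λ) (fun i => {z | ∃ r ∈ RatEq (curve k (K' i)), z = toK r} ∪
      {z | ∃ w ∈ Set.range b, ∃ f : Place k K → Place k (K' i), (curve k (K' i)).IsMor K f ∧
        z = Finsupp.mapDomain f w}) ?_ _ ha
    intro d hd
    by_cases hp : ∃ i, ∃ r ∈ RatEq (curve k (K' i)), d i = toK r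
    · obtain ⟨i, r, hr, hdi⟩ := hp
      exact MP_rat (X := fun i => curve k (K' i)) (fun i L _ _ Q => curve_const (K' i) L Q) hΛ i
        hr d hdi
    · push Not at hp
      have h3 : ∀ i, ∃ (j : J) (f : Place k K → Place k (K' i)), (curve k (K' i)).IsMor K f ∧
          d i = Finsupp.mapDomain f (b j) := by
        intro i
        rcases hd i with ⟨r, hr, h4⟩ | ⟨_, ⟨j, rfl⟩, f, hf, h4⟩
        · exact absurd h4 (hp i r hr)
        · exact ⟨j, f, hf, h4⟩
      choose j f hf hdf using h3
      have h4 : d = fun i => Finsupp.mapDomain (f i) (b (j i)) := funext hdf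
      rw [h4, ← MP_map (A := fun _ => Place k K) f Λ fun i => b (j i), MP_eq_ML]
      refine H _ ?_ j
      refine Kill.comp (X := (curve k K).pow (Fin n)) (Y := varPi fun i => curve k (K' i))
        (F := fun x i => f i (x i)) ?_ hΛ
      intro L _ _ x hx i
      exact reg_of_isMor (hf i) L _ (hx i)
  rw [← ev_prodCycle, hev] at h1
  change ((l (prodCycle a) : ℚ) : k) = 0 at h1
  exact_mod_cast h1

end Pool.Agent.J4.H71.IR
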