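import Pool.Agent.J4.H71.IR.B

/-!
# Bounds for isotypic divisors
-/

set_option autoImplicit false

open FF IntermediateField Equiv Pool.Agent.J4.H17.ZC Pool.Agent.J4.H27.BB Pool.Agent.J4.H18.CV
  Pool.Agent.J4.H82.PV

namespace Pool.Agent.J4.H71.IR

section defs

variable {k : Type} [Field k] {K : Type} [Field K] [Algebra k K] {H : Type} [Group H]

/-- The sum of the divisors `χ(h)⁻¹ h(D)` for the elements `h` of the finite group `H`, which acts on
the curve by `β`. -/
noncomputable def twist [Fintype H] (β : H →* (K ≃ₐ[k] K)) (χ : H →* kˣ) (D : Place k K →₀ k) :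
    Place k K →₀ k :=
  ∑ h : H, (((χ h)⁻¹ : kˣ) : k) • Finsupp.mapDomain (act (β h)) D

/-- The number `ν` for a character `χ` with balanced branch points: `ν + 1 = g + r`, `g` the genus of
`C/H`, if `w` is a nonzero function with `h w = χ(h) w`, `w ^ m = f` is a function on `C/H`, and the
points of `C/H` at which the order of `f` is not divisible by `m` can be divided into `r ≥ 1` pairs
such that the sum of the two orders is divisible by `m`. -/
def Balanced (β : H →* (K ≃ₐ[k] K)) (χ : H →* kˣ) (ν : ℕ) : Prop :=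
  ∃ (g r m : ℕ) (w : K) (f : fixedField β.range)
    (b : Fin r × Bool → Place k (fixedField β.range)),
    HasGenus k (fixedField β.range) g ∧ 0 < r ∧ ν + 1 = g + r ∧ 0 < m ∧ w ≠ 0 ∧
    (∀ h, β h w = algebraMap k K (χ h) * w) ∧ w ^ m = (f : K) ∧ Function.Injective b ∧
    (∀ v : Place k (fixedField β.range), ¬ (m : ℤ) ∣ v.ord f ↔ ∃ j, b j = v) ∧
    ∀ j : Fin r, (m : ℤ) ∣ (b (j, false)).ord f + (b (j, true)).ord f

/-- The bound `ν` for a character `χ`: the genus of `C/H` if `χ = 1`; the genus of `C/ker χ` or the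
number `Balanced` if `χ ≠ 1`. -/
def CharBound (β : H →* (K ≃ₐ[k] K)) (χ : H →* kˣ) (ν : ℕ) : Prop :=
  (χ = 1 ∧ HasGenus k (fixedField β.range) ν) ∨
    (χ ≠ 1 ∧ (HasGenus k (fixedField (χ.ker.map β)) ν ∨ Balanced β χ ν))

end defs

variable {k : Type} [Field k] {K : Type} [Field K] [Algebra k K]

section tw

variable {H : Type} [Group H] [Fintype H] (β : H →* (K ≃ₐ[k] K)) (χ : H →* kˣ)

theorem twist_eq (D : Place k K →₀ k) :
    twist β χ D = Finsupp.linearCombination k (exu β χ) D := by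
  induction D using Finsupp.induction_linear with
  | zero =>
    unfold twist
    simp
  | add u v hu hv =>
    rw [map_add, ← hu, ← hv]
    unfold twist
    rw [← Finset.sum_add_distrib]
    refine Finset.sum_congr rfl fun h _ => ?_
    rw [Finsupp.mapDomain_add, smul_add]
  | single P c =>
    rw [Finsupp.linearCombination_single]
    unfold twist exu
    rw [Finset.smul_sum]
    refine Finset.sum_congr rfl fun h _ => ?_
    rw [Finsupp.mapDomain_single, smul_comm c, Finsupp.smul_single c, smul_eq_mul, mul_one]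

theorem map_twist (h : H) (D : Place k K →₀ k) :
    Finsupp.mapDomain (act (β h)) (twist β χ D) = ((χ h : kˣ) : k) • twist β χ D := by
  have h1 : Finsupp.mapDomain (act (β h)) (twist β χ D) =
      Finsupp.lmapDomain k k (act (β h)) (twist β χ D) := rfl
  rw [h1]
  unfold twist
  rw [map_sum, Finset.smul_sum]
  refine Fintype.sum_equiv (Equiv.mulLeft h) _ _ fun x => ?_
  rw [map_smul, Finsupp.lmapDomain_apply, ← Finsupp.mapDomain_comp, smul_smul]
  change _ = (((χ h : kˣ) : k) * (((χ (h * x))⁻¹ : kˣ) : k)) • Finsupp.mapDomain (act (β (h * x))) D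
  have h2 : act (β h) ∘ act (β x) = act (β (h * x)) := by
    funext P
    rw [map_mul, act_mul]
    rfl
  rw [h2]
  congr 1
  rw [map_mul, mul_inv_rev, Units.val_mul, mul_comm (((χ x)⁻¹ : kˣ) : k), ← mul_assoc,
    Units.mul_inv, one_mul]

theorem sum_char (hχ : χ ≠ 1) : ∑ h : H, (((χ h)⁻¹ : kˣ) : k) = 0 := by
  obtain ⟨h0, hh0⟩ : ∃ h0, χ h0 ≠ 1 := by
    by_contra hcon
    push Not at hcon
    exact hχ (MonoidHom.ext hcon)
  have h1 : ∑ h : H, (((χ h)⁻¹ : kˣ) : k) = (((χ h0)⁻¹ : kˣ) : k) * ∑ h : H, (((χ h)⁻¹ : kˣ) : k) := by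
    rw [Finset.mul_sum]
    refine (Fintype.sum_equiv (Equiv.mulLeft h0) _ _ fun x => ?_).symm
    change _ = (((χ (h0 * x))⁻¹ : kˣ) : k)
    rw [map_mul, mul_inv_rev, Units.val_mul, mul_comm]
  have h2 : (1 - (((χ h0)⁻¹ : kˣ) : k)) * ∑ h : H, (((χ h)⁻¹ : kˣ) : k) = 0 := by
    rw [sub_mul, one_mul, ← h1, sub_self]
  refine (mul_eq_zero.1 h2).resolve_left fun h3 => hh0 ?_
  rw [sub_eq_zero] at h3
  have h4 : (χ h0)⁻¹ = 1 := Units.ext h3.symm
  exact inv_eq_one.1 h4

theorem dgK_twist (D : Place k K →₀ k) (h : χ ≠ 1 ∨ dgK D = 0) : dgK (twist β χ D) = 0 := by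
  have h1 : dgK (twist β χ D) = (∑ h : H, (((χ h)⁻¹ : kˣ) : k)) * dgK D := by
    unfold twist
    rw [map_sum, Finset.sum_mul]
    refine Finset.sum_congr rfl fun h _ => ?_
    rw [map_smul, dgK_map, smul_eq_mul]
  rw [h1]
  rcases h with h | h
  · rw [sum_char χ h, zero_mul]
  · rw [h, mul_zero]

end tw

variable [CharZero k] [IsAlgClosed k] [IsFF k K]

theorem lin_sub_const {A B : Type} (e : A → (B →₀ k)) (z : B →₀ k) (D : A →₀ k) :
    Finsupp.linearCombination k (fun P => e P - z) D =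
      Finsupp.linearCombination k e D - dgK D • z := by
  induction D using Finsupp.induction_linear with
  | zero => simp
  | add u v hu hv =>
    rw [map_add, hu, hv, map_add, map_add, add_smul]
    abel
  | single P c =>
    rw [Finsupp.linearCombination_single, Finsupp.linearCombination_single, dgK_single, smul_sub]

/-- The vanishing theorem for a bound. -/
theorem charBound_van {H : Type} [Group H] [Fintype H] {β : H →* (K ≃ₐ[k] K)} {χ : H →* kˣ}
    {ν : ℕ} (hb : CharBound β χ ν) (D : Place k K →₀ k) (hD : χ = 1 → dgK D = 0) :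
    ∃ (e : Place k K → (Place k K →₀ k)) (D' : Place k K →₀ k), VanK k e ν ∧
      twist β χ D = Finsupp.linearCombination k e D' := by
  classical
  obtain ⟨o, -⟩ := exists_place (k := k) (K := K)
  rcases hb with ⟨h1, h2⟩ | ⟨h1, h2 | h2⟩
  · subst h1
    refine ⟨fun P => exu β 1 P - exu β 1 o, D, van_trivK β h2 o, ?_⟩
    rw [lin_sub_const, hD rfl, zero_smul, sub_zero, twist_eq]
  · have h5 : Fintype χ.ker := Fintype.ofFinite _
    have hr2 : (β.comp χ.ker.subtype).range = χ.ker.map β := by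
      rw [MonoidHom.range_comp, Subgroup.range_subtype]
    rw [← hr2] at h2
    have hcard : ((Fintype.card χ.ker : ℕ) : k) ≠ 0 := by
      rw [Nat.cast_ne_zero]
      exact Fintype.card_ne_zero
    refine ⟨fun P => exu (β.comp χ.ker.subtype) 1 P - exu (β.comp χ.ker.subtype) 1 o,
      ((Fintype.card χ.ker : ℕ) : k)⁻¹ • twist β χ D, van_trivK _ h2 o, ?_⟩
    rw [lin_sub_const, map_smul, map_smul, dgK_twist β χ D (Or.inl h1), smul_zero, zero_smul,
      sub_zero, ← twist_eq]
    have h6 : twist (β.comp χ.ker.subtype) 1 (twist β χ D) =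
        ((Fintype.card χ.ker : ℕ) : k) • twist β χ D := by
      have h7 : ∀ x : χ.ker, (((((1 : χ.ker →* kˣ) x)⁻¹ : kˣ) : k) •
          Finsupp.mapDomain (act ((β.comp χ.ker.subtype) x)) (twist β χ D)) = twist β χ D := by
        intro x
        have h8 : (β.comp χ.ker.subtype) x = β x := rfl
        rw [h8, map_twist]
        have h9 : χ x = 1 := x.2
        rw [h9, MonoidHom.one_apply, inv_one, Units.val_one, one_smul, one_smul]
      change ∑ x : χ.ker, _ = _
      rw [Finset.sum_congr rfl fun x _ => h7 x, Finset.sum_const, Finset.card_univ,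
        Nat.cast_smul_eq_nsmul]
    rw [h6, smul_smul, inv_mul_cancel₀ hcard, one_smul]
  · obtain ⟨g, r, m, w, f, b, hg, hr, hν, hm, hw0, hw, hwm, hb, hB, hpair⟩ := h2
    refine ⟨exu β χ, D, ?_, twist_eq β χ D⟩
    refine van_pairs β χ hg hr hν hw0 hw hm (δ := f) hwm b hb (fun v => ?_) hpair
    have h3 := hB v
    constructor
    · intro h4 j hj
      exact (h3.2 ⟨j, hj⟩) h4
    · intro h4
      by_contra h5
      obtain ⟨j, hj⟩ := h3.1 h5
      exact h4 j hj

/-- The exterior products of isotypic divisors. -/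
theorem iso_main {J : Type} [Fintype J] (b : J → Place k K →₀ k) (ν : J → ℕ)
    (hb : ∀ j, ∃ (H : Type) (_ : Group H) (_ : Fintype H) (β : H →* (K ≃ₐ[k] K)) (χ : H →* kˣ)
      (D : Place k K →₀ k), (χ = 1 → dgK D = 0) ∧ b j - twist β χ D ∈ prin k K ∧
        CharBound β χ (ν j))
    {n : ℕ} (hn : ∑ j, ν j < n) (K' : Fin n → Type) [∀ i, Field (K' i)] [∀ i, Algebra k (K' i)]
    [∀ i, IsFF k (K' i)] (a : ∀ i, Place k (K' i) →₀ ℤ)
    (ha : ∀ i, (toK (a i) : Place k (K' i) →₀ k) ∈ imagesK k (K' i) (Set.range b)) :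
    (2 ≤ n → ∀ i, Finsupp.mapDomain (fun x : ∀ i, Place k (K' i) => x i) (prodCycle a) = 0) ∧
    ∃ N : ℕ, 0 < N ∧ N • prodCycle a ∈ RatEq (varPi fun i => curve k (K' i)) := by
  classical
  refine reduceK b ?_ ?_ K' a ha
  · intro j
    obtain ⟨H, _, _, β, χ, D, hD, h1, -⟩ := hb j
    have h2 := dgK_prin h1
    rw [map_sub, dgK_twist β χ D, sub_zero] at h2
    · exact h2
    · by_cases h : χ = 1
      · exact Or.inr (hD h)
      · exact Or.inl h
  · intro Λ hΛ j
    obtain ⟨j0, T, hT, hjT⟩ := pigeon ν hn j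
    obtain ⟨H, _, _, β, χ, D, hD, h1, h2⟩ := hb j0
    obtain ⟨e, D', hv, hD'⟩ := charBound_van h2 D hD
    rw [hD'] at h1
    exact case_vanK hv hΛ T hT (b j0) D' h1 _ fun i hi => by rw [hjT i hi]

end Pool.Agent.J4.H71.IR
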